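import Pool.Agent.H61.HB.Stmts

/-!
Project HB, row MEA (continuity of `dsq (u t)`, and the bound for the means).
-/

set_option autoImplicit false

namespace HB

open Filter Topology

theorem mea_sq_nonneg (k : Z2) : 0 ≤ sq k := by
  unfold sq
  positivity

theorem mea_sum (f : Z2 → ℂ) (hf : MemS 2 f) : Summable fun k => sq k ^ 2 * ‖f k‖ ^ 2 := by
  refine Summable.of_nonneg_of_le (fun k => by positivity) (fun k => ?_) hf
  have h0 := mea_sq_nonneg k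
  rw [Real.rpow_two]
  have h1 : sq k ^ 2 ≤ (1 + sq k) ^ 2 := by nlinarith
  exact mul_le_mul_of_nonneg_right h1 (by positivity)

theorem mea_pt (a b : ℂ) (η : ℝ) (hη : 0 < η) :
    ‖a‖ ^ 2 ≤ ‖b‖ ^ 2 + ((1 + 1 / η) * ‖a - b‖ ^ 2 + η * ‖b‖ ^ 2) ∧
    ‖b‖ ^ 2 ≤ ‖a‖ ^ 2 + ((1 + 1 / η) * ‖a - b‖ ^ 2 + η * ‖b‖ ^ 2) := by
  have h1 : ‖a‖ ≤ ‖b‖ + ‖a - b‖ := by
    have := norm_add_le b (a - b)
    rwa [add_sub_cancel] at this
  have h2 : ‖b‖ ≤ ‖a‖ + ‖a - b‖ := by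
    have := norm_sub_le a (a - b)
    rwa [sub_sub_cancel] at this
  have ha := norm_nonneg a
  have hb := norm_nonneg b
  have hz := norm_nonneg (a - b)
  set x := ‖a‖
  set y := ‖b‖
  set z := ‖a - b‖
  have h3 : 2 * z * y ≤ 1 / η * z ^ 2 + η * y ^ 2 := by
    have h4 : 0 ≤ 1 / η * (z - η * y) ^ 2 := by positivity
    have h5 : 1 / η * (z - η * y) ^ 2 = 1 / η * z ^ 2 - 2 * z * y + η * y ^ 2 := by
      field_simp
      ring
    linarith
  constructor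
  · have : x ^ 2 ≤ (y + z) ^ 2 := by
      apply pow_le_pow_left₀ ha h1
    nlinarith
  · by_cases hc : y ≤ x
    · have : y ^ 2 ≤ x ^ 2 := pow_le_pow_left₀ hb hc 2
      have : 0 ≤ (1 + 1 / η) * z ^ 2 + η * y ^ 2 := by positivity
      linarith
    · push Not at hc
      nlinarith

theorem mea_cmp (f g : Z2 → ℂ) (hf : MemS 2 f) (hg : MemS 2 g) (hfg : MemS 2 (f - g)) (η : ℝ)
    (hη : 0 < η) : |dsS f - dsS g| ≤ (1 + 1 / η) * dsS (f - g) + η * dsS g := by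
  have sf := mea_sum f hf
  have sg := mea_sum g hg
  have sd := mea_sum (f - g) hfg
  have sd1 : Summable fun k => (1 + 1 / η) * (sq k ^ 2 * ‖(f - g) k‖ ^ 2) := sd.mul_left _
  have sg1 : Summable fun k => η * (sq k ^ 2 * ‖g k‖ ^ 2) := sg.mul_left _
  have e1 : ∑' k, (1 + 1 / η) * (sq k ^ 2 * ‖(f - g) k‖ ^ 2) = (1 + 1 / η) * dsS (f - g) :=
    tsum_mul_left
  have e2 : ∑' k, η * (sq k ^ 2 * ‖g k‖ ^ 2) = η * dsS g := tsum_mul_left
  have e3 := sd1.tsum_add sg1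
  have hR := sd1.add sg1
  have i1 : dsS f ≤ dsS g + ((1 + 1 / η) * dsS (f - g) + η * dsS g) := by
    have h := Summable.tsum_le_tsum (f := fun k => sq k ^ 2 * ‖f k‖ ^ 2)
      (g := fun k => sq k ^ 2 * ‖g k‖ ^ 2 + ((1 + 1 / η) * (sq k ^ 2 * ‖(f - g) k‖ ^ 2) +
        η * (sq k ^ 2 * ‖g k‖ ^ 2))) (fun k => by
        have h1 := (mea_pt (f k) (g k) η hη).1
        have h2 := mul_le_mul_of_nonneg_left h1 (by positivity : (0 : ℝ) ≤ sq k ^ 2)
        rw [Pi.sub_apply]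
        linarith) sf (sg.add hR)
    rw [sg.tsum_add hR, e3, e1, e2] at h
    exact h
  have i2 : dsS g ≤ dsS f + ((1 + 1 / η) * dsS (f - g) + η * dsS g) := by
    have h := Summable.tsum_le_tsum (f := fun k => sq k ^ 2 * ‖g k‖ ^ 2)
      (g := fun k => sq k ^ 2 * ‖f k‖ ^ 2 + ((1 + 1 / η) * (sq k ^ 2 * ‖(f - g) k‖ ^ 2) +
        η * (sq k ^ 2 * ‖g k‖ ^ 2))) (fun k => by
        have h1 := (mea_pt (f k) (g k) η hη).2
        have h2 := mul_le_mul_of_nonneg_left h1 (by positivity : (0 : ℝ) ≤ sq k ^ 2)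
        rw [Pi.sub_apply]
        linarith) sg (sf.add hR)
    rw [sf.tsum_add hR, e3, e1, e2] at h
    exact h
  rw [abs_le]
  constructor <;> linarith

theorem mea_dsS_nonneg (f : Z2 → ℂ) : 0 ≤ dsS f := tsum_nonneg fun k => by positivity

theorem mea_cont (hM : MMBStmt) (hD : DIVStmt) (s T : ℝ) (u : ℝ → V) (hs : 2 ≤ s)
    (hu : Cts s T u) (j : Fin 2) : ContinuousOn (fun t => dsS (u t j)) (Set.Icc 0 T) := by
  obtain ⟨m1, m2, m3, -, -, -⟩ := hM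
  obtain ⟨-, -, d3⟩ := hD
  intro t ht
  have hN := hu.2 t ht
  have hmem : ∀ r ∈ Set.Icc 0 T, MemS 2 (u r j) := fun r hr => (m2 2 s _ hs (hu.1 r hr j)).1
  have hle : ∀ r ∈ Set.Icc 0 T, MemS 2 (u r j - u t j) ∧
      dsS (u r j - u t j) ≤ nsq s (u r - u t) := by
    intro r hr
    have h1 := (m3 s _ _ (hu.1 r hr j) (hu.1 t ht j)).1
    have h2 := m2 2 s _ hs h1
    have h3 := (d3 _ h2.1).2.2.2.1
    refine ⟨h2.1, h3.trans (h2.2.trans ?_)⟩
    have h4 : nqS s ((u r - u t) j) ≤ nsq s (u r - u t) :=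
      Finset.single_le_sum (f := fun i => nqS s ((u r - u t) i)) (fun i _ => m1 s _)
        (Finset.mem_univ j)
    exact h4
  rw [ContinuousWithinAt, Metric.tendsto_nhds]
  intro ε hε
  set Q := dsS (u t j) with hQ
  have hQ0 : 0 ≤ Q := mea_dsS_nonneg _
  set η := ε / (2 * (Q + 1)) with hη
  have hη0 : 0 < η := by positivity
  have hηQ : η * Q < ε / 2 := by
    have : η * (Q + 1) = ε / 2 := by
      rw [hη]
      field_simp
    nlinarith
  have hc : 0 < 1 + 1 / η := by positivity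
  have hev : ∀ᶠ r in 𝓝[Set.Icc 0 T] t, nsq s (u r - u t) < ε / 2 / (1 + 1 / η) :=
    hN.eventually_lt_const (by positivity)
  filter_upwards [hev, self_mem_nhdsWithin] with r hr hrT
  rw [Real.dist_eq]
  have h1 := mea_cmp (u r j) (u t j) (hmem r hrT) (hmem t ht) (hle r hrT).1 η hη0
  have h2 := (hle r hrT).2
  have h3 : (1 + 1 / η) * dsS (u r j - u t j) < ε / 2 := by
    have h4 : dsS (u r j - u t j) < ε / 2 / (1 + 1 / η) := lt_of_le_of_lt h2 hr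
    rwa [lt_div_iff₀ hc, mul_comm] at h4
  calc |dsS (u r j) - dsS (u t j)| ≤ _ := h1
    _ < ε := by linarith

theorem mea_int (a : ℤ) : |(a : ℝ)| ≤ (a : ℝ) ^ 2 := by
  have h : |a| ≤ a ^ 2 := by
    rcases abs_cases a with ⟨h1, h2⟩ | ⟨h1, h2⟩ <;> rw [h1] <;> nlinarith
  exact_mod_cast h

theorem mea_sq_le (l : Z2) : sq l ≤ sq l ^ 2 := by
  have h : sq l = ((l.1 ^ 2 + l.2 ^ 2 : ℤ) : ℝ) := by
    unfold sq
    push_cast
    ring
  have h1 := mea_int (l.1 ^ 2 + l.2 ^ 2)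
  rw [← h] at h1
  exact (le_abs_self _).trans h1

theorem mea_co (i : Fin 2) (l : Z2) : |co i l| ≤ sq l ^ 2 := by
  refine le_trans ?_ (mea_sq_le l)
  unfold co sq
  split_ifs
  · have := mea_int l.1
    nlinarith [sq_nonneg (l.2 : ℝ)]
  · have := mea_int l.2
    nlinarith [sq_nonneg (l.1 : ℝ)]

theorem mea_sq_neg (l : Z2) : sq (-l) = sq l := by
  unfold sq
  simp

theorem mea_adv (hB : BILStmt) (u : V) (hu : Mem 2 u) (j : Fin 2) :
    ‖adv u u j 0‖ ≤ 2 * dsq u := by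
  obtain ⟨C, -, hC⟩ := hB 2 le_rfl
  have hs : Summable fun l => ‖trm u (u j) 0 l‖ := (hC u (u j) hu (hu j)).1 0
  have h1 : ‖adv u u j 0‖ ≤ ∑' l, ‖trm u (u j) 0 l‖ := norm_tsum_le_tsum_norm hs
  have s0 : ∀ i, Summable fun l => sq l ^ 2 * ‖u i l‖ ^ 2 := fun i => mea_sum _ (hu i)
  have s1 : Summable fun l : Z2 => sq (-l) ^ 2 * ‖u j (-l)‖ ^ 2 :=
    (Equiv.neg Z2).summable_iff.2 (s0 j)
  have e1 : ∑' l : Z2, sq (-l) ^ 2 * ‖u j (-l)‖ ^ 2 = dsS (u j) :=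
    (Equiv.neg Z2).tsum_eq (fun l => sq l ^ 2 * ‖u j l‖ ^ 2)
  have s2 : Summable fun l : Z2 => 1 / 2 * (sq l ^ 2 * ‖u 0 l‖ ^ 2 + sq l ^ 2 * ‖u 1 l‖ ^ 2) :=
    ((s0 0).add (s0 1)).mul_left _
  have e2 : ∑' l : Z2, 1 / 2 * (sq l ^ 2 * ‖u 0 l‖ ^ 2 + sq l ^ 2 * ‖u 1 l‖ ^ 2) =
      1 / 2 * (dsS (u 0) + dsS (u 1)) := by
    rw [tsum_mul_left, (s0 0).tsum_add (s0 1)]
    rfl
  have hpt : ∀ l : Z2, ‖trm u (u j) 0 l‖ ≤
      1 / 2 * (sq l ^ 2 * ‖u 0 l‖ ^ 2 + sq l ^ 2 * ‖u 1 l‖ ^ 2) +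
        sq (-l) ^ 2 * ‖u j (-l)‖ ^ 2 := by
    intro l
    have hi : ∀ i, ‖u i l * (Complex.I * (co i (0 - l) : ℂ)) * u j (0 - l)‖ ≤
        sq l ^ 2 * (1 / 2 * ‖u i l‖ ^ 2 + 1 / 2 * ‖u j (-l)‖ ^ 2) := by
      intro i
      rw [norm_mul, norm_mul, norm_mul, Complex.norm_I, one_mul, Complex.norm_real,
        Real.norm_eq_abs, zero_sub]
      have hc := mea_co i (-l)
      rw [mea_sq_neg] at hc
      have ha := norm_nonneg (u i l)
      have hb := norm_nonneg (u j (-l))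
      have hab : ‖u i l‖ * ‖u j (-l)‖ ≤ 1 / 2 * ‖u i l‖ ^ 2 + 1 / 2 * ‖u j (-l)‖ ^ 2 := by
        nlinarith [sq_nonneg (‖u i l‖ - ‖u j (-l)‖)]
      calc ‖u i l‖ * |co i (-l)| * ‖u j (-l)‖ = |co i (-l)| * (‖u i l‖ * ‖u j (-l)‖) := by ring
        _ ≤ sq l ^ 2 * (‖u i l‖ * ‖u j (-l)‖) :=
          mul_le_mul_of_nonneg_right hc (mul_nonneg ha hb)
        _ ≤ _ := mul_le_mul_of_nonneg_left hab (by positivity)
    unfold trm
    refine (norm_sum_le _ _).trans ?_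
    rw [Fin.sum_univ_two, mea_sq_neg]
    have h0 := hi 0
    have h1 := hi 1
    linarith
  have h2 := Summable.tsum_le_tsum hpt hs (s2.add s1)
  rw [s2.tsum_add s1, e1, e2] at h2
  have h3 : dsq u = dsS (u 0) + dsS (u 1) := by
    unfold dsq
    rw [Fin.sum_univ_two]
  have p0 := mea_dsS_nonneg (u 0)
  have p1 := mea_dsS_nonneg (u 1)
  have h4 : dsS (u j) ≤ dsq u := by
    rw [h3]
    fin_cases j
    · show dsS (u 0) ≤ _
      linarith
    · show dsS (u 1) ≤ _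
      linarith
  rw [← h3] at h2
  have h5 : 0 ≤ dsq u := by
    rw [h3]
    linarith
  linarith

theorem mea_thm (hB : BILStmt) (hD : DIVStmt) (hM : MMBStmt) : MEAStmt := by
  intro ν s T u _ hs hT hu
  have hc : ContinuousOn (fun t => dsq (u t)) (Set.Icc 0 T) := by
    unfold dsq
    exact continuousOn_finsetSum _ fun j _ => mea_cont hM hD s T u hs hu.cts j
  refine ⟨hc, fun j t ht => ?_⟩
  set D : ℝ → ℝ := Set.IccExtend hT ((Set.Icc 0 T).domRestrict fun t => dsq (u t)) with hDd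
  have hDc : Continuous D := (continuousOn_iff_continuous_domRestrict.1 hc).Icc_extend'
  have hDe : ∀ r ∈ Set.Icc 0 T, D r = dsq (u r) := fun r hr => by
    rw [hDd, Set.IccExtend_of_mem hT _ hr]
    rfl
  have hint : ∫ r in (0 : ℝ)..t, dsq (u r) = ∫ r in (0 : ℝ)..t, D r := by
    refine intervalIntegral.integral_congr fun r hr => ?_
    rw [Set.uIcc_of_le ht.1] at hr
    exact (hDe r ⟨hr.1, hr.2.trans ht.2⟩).symm
  rw [hint]
  have hderB : ∀ x : ℝ, HasDerivAt (fun r => 2 * ∫ ρ in (0 : ℝ)..r, D ρ) (2 * D x) x := fun x =>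
    (intervalIntegral.integral_hasDerivAt_right (hDc.intervalIntegrable _ _)
      (hDc.stronglyMeasurableAtFilter _ _) hDc.continuousAt).const_mul 2
  have hder : ∀ x ∈ Set.Icc 0 T, HasDerivWithinAt (fun r => u r j 0 - u 0 j 0)
      (-adv (u x) (u x) j 0) (Set.Icc 0 T) x := by
    intro x hx
    have h := (hu.eqn j 0 x hx).sub_const (u 0 j 0)
    have h0 : sq 0 = 0 := by simp [sq]
    rw [h0] at h
    convert! h using 1
    simp
  have hmain := image_norm_le_of_norm_deriv_right_le_deriv_boundary' (f := fun r => u r j 0 - u 0 j 0)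
    (f' := fun x => -adv (u x) (u x) j 0) (a := 0) (b := T)
    (B := fun r => 2 * ∫ ρ in (0 : ℝ)..r, D ρ) (B' := fun x => 2 * D x)
    (fun x hx => (hder x hx).continuousWithinAt)
    (fun x hx => ?_) (by simp) (fun x _ => (hderB x).continuousAt.continuousWithinAt)
    (fun x _ => (hderB x).hasDerivWithinAt) (fun x hx => ?_) ht
  · exact hmain
  · have h := hder x ⟨hx.1, hx.2.le⟩
    exact h.mono_of_mem_nhdsWithin (Icc_mem_nhdsGE_of_mem hx)
  · have hx' : x ∈ Set.Icc 0 T := ⟨hx.1, hx.2.le⟩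
    rw [norm_neg, hDe x hx']
    exact mea_adv hB (u x) (fun i => (hM.2.1 2 s _ hs (hu.cts.1 x hx' i)).1) j

end HB
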