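import Pool.Agent.H61.HB.Stmts

/-!
Project HB, row SYM.  With `F = off f`, `F (-k) = conj (F k)`, the sum is
`i ∑ (d · b) F a F b F c` over `a + b + c = 0`; permuting the variables shows that three times it
is `i ∑ (d · (a + b + c)) F a F b F c = 0`.
-/

set_option autoImplicit false

namespace HB

/-- `(k, l) ↦ (k, k - l)` -/
def symE1 : Z2 × Z2 ≃ Z2 × Z2 where
  toFun x := (x.1, x.1 - x.2)
  invFun x := (x.1, x.1 - x.2)
  left_inv x := by ext <;> simp
  right_inv x := by ext <;> simp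

/-- `(k, l) ↦ (- l, - k)` -/
def symE2 : Z2 × Z2 ≃ Z2 × Z2 where
  toFun x := (-x.2, -x.1)
  invFun x := (-x.2, -x.1)
  left_inv x := by ext <;> simp
  right_inv x := by ext <;> simp

theorem sym_aux {X : Type} (h : X → ℂ) (e₁ e₂ : X ≃ X)
    (h4 : ∀ x, h x + h (e₁ x) + h (e₂ x) = 0) : ∑' x, h x = 0 := by
  by_cases hs : Summable h
  · have h1 : ∑' x, h (e₁ x) = ∑' x, h x := e₁.tsum_eq h
    have h2 : ∑' x, h (e₂ x) = ∑' x, h x := e₂.tsum_eq h
    have s1 : Summable fun x => h (e₁ x) := e₁.summable_iff.2 hs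
    have s2 : Summable fun x => h (e₂ x) := e₂.summable_iff.2 hs
    have h3 : HasSum (fun x => h x + h (e₁ x) + h (e₂ x))
        (∑' x, h x + ∑' x, h (e₁ x) + ∑' x, h (e₂ x)) :=
      (hs.hasSum.add s1.hasSum).add s2.hasSum
    have h5 : HasSum (fun x => h x + h (e₁ x) + h (e₂ x)) 0 := by
      have : (fun x => h x + h (e₁ x) + h (e₂ x)) = fun _ => (0 : ℂ) := funext h4
      rw [this]
      exact hasSum_zero
    have h6 := h3.unique h5
    rw [h1, h2] at h6
    have h7 : (3 : ℂ) * ∑' x, h x = 0 := by linear_combination h6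
    exact (mul_eq_zero.1 h7).resolve_left (by norm_num)
  · exact tsum_eq_zero_of_not_summable hs

theorem sym_thm : SYMStmt := by
  intro d f _ hf
  have hF : ∀ k, (starRingEnd ℂ) (off f k) = off f (-k) := by
    intro k
    by_cases hk : k = 0
    · subst hk
      simp [off]
    · have hk' : -k ≠ 0 := neg_ne_zero.2 hk
      simp only [off, if_neg hk, if_neg hk']
      exact (hf k).symm
  have hform : ∀ x : Z2 × Z2, (starRingEnd ℂ) (off f x.1) *
    (Complex.I * ((d.1 * x.2.1 + d.2 * x.2.2 : ℝ) : ℂ) * f x.2) * off f (x.1 - x.2) =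
      Complex.I * ((d.1 * x.2.1 + d.2 * x.2.2 : ℝ) : ℂ) *
      (off f (-x.1) * off f x.2 * off f (x.1 - x.2)) := by
    intro x
    rw [hF]
    by_cases hx : x.2 = 0
    · rw [hx]
      simp
    · have : off f x.2 = f x.2 := by simp [off, hx]
      rw [this]
      ring
  have key : tr3 (fun l : Z2 => Complex.I * ((d.1 * l.1 + d.2 * l.2 : ℝ) : ℂ) * f l) f = 0 := by
    unfold tr3
    refine sym_aux _ symE1 symE2 fun x => ?_
    have e1 : x.1 - (x.1 - x.2) = x.2 := by abel
    have e2 : -x.2 - -x.1 = x.1 - x.2 := by abel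
    have a1 : symE1 x = (x.1, x.1 - x.2) := rfl
    have a2 : symE2 x = (-x.2, -x.1) := rfl
    rw [hform x, hform (symE1 x), hform (symE2 x), a1, a2]
    simp only [e1, e2, neg_neg, Prod.fst_sub, Prod.snd_sub, Prod.fst_neg, Prod.snd_neg]
    push_cast
    ring
  rw [key]
  simp

end HB
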